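import Pool.Agent.H14.CN.Final

set_option autoImplicit false

/-!
# Odd congruent numbers in residue classes: exact order of the number of those with a triangle
whose sides have a small common denominator

For every modulus `M` and every class `k` mod `M` containing an odd squarefree number, the number of
odd squarefree `n ≤ X` with `n ≡ k` mod `M` which are the area of a rational right triangle with sides
of common denominator at most `S` is of exact order `X ^ (1/2) * (log S) ^ 4`, uniformly for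
`S₀ ≤ S ≤ X ^ (1/6)`. In particular there are at least `c X ^ (1/2) (log X) ^ 4` odd squarefree
congruent numbers up to `X` in each such class.
-/

namespace Pool.Agent.Results.MP_05dcdc_nt.OrderSmallTriangles

open Pool.Agent.H14.CN

theorem result (M : ℕ) (hM : 0 < M) (k : ℕ) (hk : Squarefree k) (hk2 : Odd k) :
    ∃ c : ℝ, 0 < c ∧ ∃ S₀ : ℝ, ∀ X : ℕ, ∀ S : ℝ, S₀ ≤ S → S ^ 6 ≤ X →
      c * (Real.sqrt X * Real.log S ^ 4) ≤
        (({n : ℕ | n ≤ X ∧ Squarefree n ∧ (Odd n ∧ n ≡ k [MOD M]) ∧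
          ∃ a b c : ℚ, 0 < a ∧ 0 < b ∧ a ^ 2 + b ^ 2 = c ^ 2 ∧ (n : ℚ) = a * b / 2 ∧
            (((a.den.lcm b.den).lcm c.den : ℕ) : ℝ) ≤ S} : Set ℕ).ncard : ℝ) ∧
      (({n : ℕ | n ≤ X ∧ Squarefree n ∧ (Odd n ∧ n ≡ k [MOD M]) ∧
          ∃ a b c : ℚ, 0 < a ∧ 0 < b ∧ a ^ 2 + b ^ 2 = c ^ 2 ∧ (n : ℚ) = a * b / 2 ∧
            (((a.den.lcm b.den).lcm c.den : ℕ) : ℝ) ≤ S} : Set ℕ).ncard : ℝ) ≤
        176 * (Real.sqrt X * Real.log S ^ 4) := by
  refine main (e := 1) (k := k) (M := M) (Or.inl rfl) hk (fun h => absurd h (by norm_num)) hM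
    (fun n => Odd n ∧ n ≡ k [MOD M]) ?_
  intro n hn
  rw [one_mul] at hn
  refine ⟨?_, hn.of_dvd ⟨2, by ring⟩⟩
  have h2 : n ≡ k [MOD 2] := hn.of_dvd ⟨M, by ring⟩
  rw [Nat.odd_iff] at hk2 ⊢
  rw [← hk2]
  exact h2

end Pool.Agent.Results.MP_05dcdc_nt.OrderSmallTriangles
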